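import Pool.Agent.H923R2.FP.Stubs

/-!
# Existence of the flow (task FLOW)
-/

set_option autoImplicit false
set_option linter.unusedSectionVars false

open scoped ComplexConjugate

noncomputable section

namespace Pool.Agent.H923R2.FP.T_FLOW
open Pool.Agent.H923R2.FP

variable {A Q R : Type} [CStarAlgebra A] [Ring Q] [StarRing Q] [Algebra ℂ Q]
  [Ring R] [StarRing R] [Algebra ℂ R]

lemma vu_stl (π : Q →⋆ₐ[ℂ] A) (ρ : R →⋆ₐ[ℂ] A) (U : A) {s : A} (hs : star s = s) (z : Lt Q R) :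
    vu π ρ U s (stl z) = star (vu π ρ U s z) := by
  cases z with
  | q x => simp [vu, vl, stl, map_star, mul_assoc]
  | r x => simp [vu, vl, stl, map_star]
  | s => simp [vu, vl, stl, hs]

lemma vl_cj (π : Q →⋆ₐ[ℂ] A) (ρ : R →⋆ₐ[ℂ] A) (U : unitary A) (s : A) :
    (vl (cj π U) ρ s : Lt Q R → A) = vu π ρ (U : A) s := by
  funext z
  cases z with
  | q x => simp [vu, vl, cj_apply]
  | r x => rfl
  | s => rfl

lemma ev_vu_noS (π : Q →⋆ₐ[ℂ] A) (ρ : R →⋆ₐ[ℂ] A) (U s s' : A) (w : List (Lt Q R))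
    (h : ∀ z ∈ w, z.isS = false) : ev (vu π ρ U s) w = ev (vu π ρ U s') w :=
  ev_noS _ _ _ _ _ h

lemma evx_noS (π : Q →⋆ₐ[ℂ] A) (ρ : R →⋆ₐ[ℂ] A) (U s s' : A) (px : Ex Q R)
    (h : ∀ p ∈ px, ∀ z ∈ p.2, z.isS = false) :
    evx (vu π ρ U s) px = evx (vu π ρ U s') px := by
  induction px with
  | nil => rfl
  | cons p e ih =>
    rw [evx_cons, evx_cons, ih fun q hq => h q (List.mem_cons_of_mem _ hq),
      ev_vu_noS π ρ U s s' p.2 (h p List.mem_cons_self)]

lemma norm_one_le' : ‖(1 : A)‖ ≤ 1 := by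
  rcases subsingleton_or_nontrivial A with h | h
  · rw [Subsingleton.elim (1 : A) 0, norm_zero]; exact zero_le_one
  · exact CStarRing.norm_one.le

lemma norm_le_one_of_mem {U : A} (hU : U ∈ unitary A) : ‖U‖ ≤ 1 := by
  have h1 : ‖star U * U‖ = ‖U‖ * ‖U‖ := CStarRing.norm_star_mul_self
  rw [(Unitary.mem_iff.1 hU).1] at h1
  have h2 : ‖(1 : A)‖ ≤ 1 := norm_one_le'
  nlinarith [norm_nonneg U]

/-- the vector field -/
def V (π : Q →⋆ₐ[ℂ] A) (ρ : R →⋆ₐ[ℂ] A) (hx px : Ex Q R) (x : A × A) : A × A :=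
  (Complex.I • (x.1 * evx (vu π ρ x.1 x.2) hx), - evx (vu π ρ x.1 x.2) px)

lemma V_lip (hLIP : S_LIP) (π : Q →⋆ₐ[ℂ] A) (ρ : R →⋆ₐ[ℂ] A) (hx px : Ex Q R) (r : ℝ) :
    ∃ K : NNReal, LipschitzOnWith K (V π ρ hx px) (Metric.closedBall 0 r) := by
  obtain ⟨K1, h1⟩ := hLIP A Q R π ρ hx r
  obtain ⟨K2, h2⟩ := hLIP A Q R π ρ px r
  set F : A × A → A := fun x => evx (vu π ρ x.1 x.2) hx with hF
  set G : A × A → A := fun x => evx (vu π ρ x.1 x.2) px with hG
  have hC0 : 0 ≤ ‖F 0‖ + K1 * |r| + |r| * K1 + K2 := by positivity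
  refine ⟨⟨‖F 0‖ + K1 * |r| + |r| * K1 + K2, hC0⟩, LipschitzOnWith.of_dist_le_mul ?_⟩
  intro x hx' y hy
  have hr : 0 ≤ r := le_trans dist_nonneg (Metric.mem_closedBall.1 hx')
  have hxr : ‖x‖ ≤ r := mem_closedBall_zero_iff.1 hx'
  have hyr : ‖y‖ ≤ r := mem_closedBall_zero_iff.1 hy
  have h0 : (0 : A × A) ∈ Metric.closedBall (0 : A × A) r := Metric.mem_closedBall_self hr
  have dF : ‖F x - F y‖ ≤ K1 * dist x y := by
    rw [← dist_eq_norm]; exact h1.dist_le_mul x hx' y hy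
  have dG : ‖G x - G y‖ ≤ K2 * dist x y := by
    rw [← dist_eq_norm]; exact h2.dist_le_mul x hx' y hy
  have bF : ‖F x‖ ≤ ‖F 0‖ + K1 * |r| := by
    have h3 : ‖F x - F 0‖ ≤ K1 * dist x 0 := by
      rw [← dist_eq_norm]; exact h1.dist_le_mul x hx' 0 h0
    have h4 : dist x 0 ≤ |r| := by
      rw [dist_zero_right]; exact hxr.trans (le_abs_self r)
    have h5 : ‖F x‖ ≤ ‖F 0‖ + ‖F x - F 0‖ := by
      have := norm_add_le (F 0) (F x - F 0)
      rwa [add_sub_cancel] at this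
    have h6 : (K1 : ℝ) * dist x 0 ≤ K1 * |r| := mul_le_mul_of_nonneg_left h4 K1.2
    linarith
  have hd1 : ‖x.1 - y.1‖ ≤ dist x y := by
    rw [← dist_eq_norm, Prod.dist_eq]; exact le_max_left _ _
  have hy1 : ‖y.1‖ ≤ |r| := (norm_fst_le y).trans (hyr.trans (le_abs_self r))
  have hd : 0 ≤ dist x y := dist_nonneg
  rw [Prod.dist_eq]
  refine max_le ?_ ?_
  · show dist (Complex.I • (x.1 * F x)) (Complex.I • (y.1 * F y)) ≤ _
    rw [dist_eq_norm, ← smul_sub, norm_smul, Complex.norm_I, one_mul]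
    have e : x.1 * F x - y.1 * F y = (x.1 - y.1) * F x + y.1 * (F x - F y) := by noncomm_ring
    rw [e]
    have h7 : ‖(x.1 - y.1) * F x‖ ≤ dist x y * (‖F 0‖ + K1 * |r|) :=
      (norm_mul_le _ _).trans (mul_le_mul hd1 bF (norm_nonneg _) hd)
    have h8 : ‖y.1 * (F x - F y)‖ ≤ |r| * (K1 * dist x y) :=
      (norm_mul_le _ _).trans (mul_le_mul hy1 dF (norm_nonneg _) (abs_nonneg r))
    have h9 := norm_add_le ((x.1 - y.1) * F x) (y.1 * (F x - F y))
    have h10 : 0 ≤ (K2 : ℝ) * dist x y := mul_nonneg K2.2 hd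
    show _ ≤ (‖F 0‖ + K1 * |r| + |r| * K1 + K2) * dist x y
    nlinarith
  · show dist (- G x) (- G y) ≤ _
    rw [dist_neg_neg, dist_eq_norm]
    show _ ≤ (‖F 0‖ + K1 * |r| + |r| * K1 + K2) * dist x y
    have h10 : 0 ≤ (‖F 0‖ + K1 * |r| + |r| * K1) * dist x y := by positivity
    nlinarith

/-- facts on a solution -/
lemma facts (π : Q →⋆ₐ[ℂ] A) (ρ : R →⋆ₐ[ℂ] A) (hx px : Ex Q R) (hhx : SAx A hx) (hpx : SAx A px)
    (hnoS : ∀ p ∈ px, ∀ z ∈ p.2, z.isS = false) (s0 : A) (hs0 : star s0 = s0)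
    (hFc : Continuous fun x : A × A => evx (vu π ρ x.1 x.2) hx)
    (T : ℝ) (x : ℝ → A × A) (h0 : x 0 = (1, s0))
    (hd : ∀ t ∈ Set.Icc 0 T, HasDerivWithinAt x (V π ρ hx px (x t)) (Set.Icc 0 T) t) :
    ∀ t ∈ Set.Icc 0 T, (x t).1 ∈ unitary A ∧ star (x t).2 = (x t).2 := by
  have hxc : ContinuousOn x (Set.Icc 0 T) := fun t ht => (hd t ht).continuousWithinAt
  have hU : ∀ t ∈ Set.Icc 0 T, HasDerivWithinAt (fun t => (x t).1)
      (Complex.I • ((x t).1 * evx (vu π ρ (x t).1 (x t).2) hx)) (Set.Icc 0 T) t := fun t ht =>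
    (hd t ht).fst
  have hs : ∀ t ∈ Set.Icc 0 T, HasDerivWithinAt (fun t => (x t).2)
      (- evx (vu π ρ (x t).1 (x t).2) px) (Set.Icc 0 T) t := fun t ht => (hd t ht).snd
  -- `p` is self-adjoint
  have hpsa : ∀ U s : A, star (evx (vu π ρ U s) px) = evx (vu π ρ U s) px := by
    intro U s
    rw [evx_noS π ρ U s 0 px hnoS]
    exact hpx _ fun z => vu_stl π ρ U (star_zero A) z
  -- `s` is self-adjoint
  have hssa : ∀ t ∈ Set.Icc 0 T, star (x t).2 = (x t).2 := by
    have h1 : ∀ t ∈ Set.Icc 0 T, HasDerivWithinAt (fun t => star (x t).2 - (x t).2) 0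
        (Set.Icc 0 T) t := by
      intro t ht
      have h2 := (hs t ht).star.sub (hs t ht)
      rw [star_neg, hpsa, sub_self] at h2
      exact h2
    have h3 := norm_image_sub_le_of_norm_deriv_le_segment' (C := 0) h1 fun t _ => by
      rw [norm_zero]
    intro t ht
    have h4 := h3 t ht
    rw [zero_mul] at h4
    have h5 := norm_le_zero_iff.1 h4
    simp only [h0] at h5
    rw [hs0, sub_self, sub_zero] at h5
    exact sub_eq_zero.1 h5
  -- `h` is self-adjoint
  have hhsa : ∀ t ∈ Set.Icc 0 T, star (evx (vu π ρ (x t).1 (x t).2) hx) =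
      evx (vu π ρ (x t).1 (x t).2) hx := fun t ht =>
    hhx _ fun z => vu_stl π ρ _ (hssa t ht) z
  set h : ℝ → A := fun t => evx (vu π ρ (x t).1 (x t).2) hx with hh
  have hUs : ∀ t ∈ Set.Icc 0 T, HasDerivWithinAt (fun t => star (x t).1)
      (-(Complex.I • (h t * star (x t).1))) (Set.Icc 0 T) t := by
    intro t ht
    have h2 := (hU t ht).star
    have e : star (Complex.I • ((x t).1 * evx (vu π ρ (x t).1 (x t).2) hx)) =
        -(Complex.I • (h t * star (x t).1)) := by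
      rw [star_smul, star_mul, hhsa t ht]
      simp [hh]
    rw [e] at h2
    exact h2
  -- `U star U = 1`
  have h1 : ∀ t ∈ Set.Icc 0 T, (x t).1 * star (x t).1 = 1 := by
    have h2 : ∀ t ∈ Set.Icc 0 T, HasDerivWithinAt (fun t => (x t).1 * star (x t).1) 0
        (Set.Icc 0 T) t := by
      intro t ht
      have h3 := (hU t ht).mul (hUs t ht)
      have e : Complex.I • ((x t).1 * evx (vu π ρ (x t).1 (x t).2) hx) * star (x t).1 +
          (x t).1 * -(Complex.I • (h t * star (x t).1)) = 0 := by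
        rw [smul_mul_assoc, mul_neg, mul_smul_comm, ← mul_assoc]
        exact add_neg_cancel _
      rw [e] at h3
      exact h3
    have h3 := norm_image_sub_le_of_norm_deriv_le_segment' (C := 0) h2 fun t _ => by
      rw [norm_zero]
    intro t ht
    have h4 := h3 t ht
    rw [zero_mul] at h4
    have h5 := norm_le_zero_iff.1 h4
    simp only [h0] at h5
    rw [star_one, mul_one] at h5
    exact sub_eq_zero.1 h5
  -- `star U U = 1`
  have h2 : ∀ t ∈ Set.Icc 0 T, star (x t).1 * (x t).1 = 1 := by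
    obtain ⟨H, hH⟩ : ∃ H : ℝ, ∀ t ∈ Set.Icc 0 T, ‖h t‖ ≤ H := by
      have hc : ContinuousOn h (Set.Icc 0 T) := hFc.comp_continuousOn hxc
      exact isCompact_Icc.exists_bound_of_continuousOn hc
    set N : ℝ → A := fun t => star (x t).1 * (x t).1 - 1 with hN
    have h3 : ∀ t ∈ Set.Icc 0 T, HasDerivWithinAt N (Complex.I • (N t * h t - h t * N t))
        (Set.Icc 0 T) t := by
      intro t ht
      have h4 := ((hUs t ht).mul (hU t ht)).sub_const (1 : A)
      have e : -(Complex.I • (h t * star (x t).1)) * (x t).1 +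
          star (x t).1 * (Complex.I • ((x t).1 * evx (vu π ρ (x t).1 (x t).2) hx)) =
          Complex.I • (N t * h t - h t * N t) := by
        rw [neg_mul, smul_mul_assoc, mul_smul_comm]
        have e2 : N t * h t - h t * N t = star (x t).1 * ((x t).1 * h t) -
            h t * star (x t).1 * (x t).1 := by
          simp only [hN]
          noncomm_ring
        rw [e2, smul_sub]
        exact (sub_eq_neg_add _ _).symm
      rw [e] at h4
      exact h4
    have h5 := eq_zero_of_abs_deriv_le_mul_abs_self_of_eq_zero_right (f := N)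
      (f' := fun t => Complex.I • (N t * h t - h t * N t)) (K := 2 * H) (a := 0) (b := T)
      (fun t ht => (h3 t ht).continuousWithinAt)
      (fun t ht => (h3 t (Set.Ico_subset_Icc_self ht)).mono_of_mem_nhdsWithin
        (Icc_mem_nhdsGE_of_mem ht))
      (by simp only [hN, h0]; rw [star_one, mul_one, sub_self])
      (fun t ht => by
        have h6 := hH t (Set.Ico_subset_Icc_self ht)
        rw [norm_smul, Complex.norm_I, one_mul]
        have h7 := norm_sub_le (N t * h t) (h t * N t)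
        have h8 := norm_mul_le (N t) (h t)
        have h9 := norm_mul_le (h t) (N t)
        have h10 := norm_nonneg (N t)
        nlinarith)
    intro t ht
    exact sub_eq_zero.1 (h5 t ht)
  intro t ht
  exact ⟨Unitary.mem_iff.2 ⟨h2 t ht, h1 t ht⟩, hssa t ht⟩

/-- existence of the flow -/
theorem t_FLOW (hODE : S_ODE) (hLIP : S_LIP) : S_FLOW := by
  intro A Q R _ _ _ _ _ _ _ π ρ hx px hhx hpx hnoS s0 hs0 T hT
  have hV := V_lip hLIP π ρ hx px
  have hFc : Continuous fun x : A × A => evx (vu π ρ x.1 x.2) hx := by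
    rw [continuous_iff_continuousAt]
    intro x
    obtain ⟨K, hK⟩ := hLIP A Q R π ρ hx (‖x‖ + 1)
    refine hK.continuousOn.continuousAt ?_
    refine Metric.closedBall_mem_nhds_of_mem ?_
    rw [Metric.mem_ball, dist_zero_right]
    linarith
  obtain ⟨K, hK⟩ := hLIP A Q R π ρ px 1
  set C : ℝ := ‖evx (vu π ρ (0 : A) 0) px‖ + K with hC
  have hC0 : 0 ≤ C := add_nonneg (norm_nonneg _) K.2
  have hpb : ∀ U s : A, ‖U‖ ≤ 1 → ‖evx (vu π ρ U s) px‖ ≤ C := by
    intro U s hU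
    rw [evx_noS π ρ U s 0 px hnoS]
    have h1 : ((U, 0) : A × A) ∈ Metric.closedBall (0 : A × A) 1 := by
      rw [mem_closedBall_zero_iff, Prod.norm_def]
      exact max_le hU (by simp)
    have h2 := hK.dist_le_mul (U, 0) h1 0 (Metric.mem_closedBall_self zero_le_one)
    have h3 : dist ((U, 0) : A × A) 0 ≤ 1 := Metric.mem_closedBall.1 h1
    have h4 : (K : ℝ) * dist ((U, 0) : A × A) 0 ≤ K := by
      have := mul_le_mul_of_nonneg_left h3 K.2
      simpa using this
    rw [dist_eq_norm] at h2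
    have h5 := norm_add_le (evx (vu π ρ (0 : A) 0) px)
      (evx (vu π ρ U 0) px - evx (vu π ρ (0 : A) 0) px)
    rw [add_sub_cancel] at h5
    have h6 : ‖evx (vu π ρ U 0) px - evx (vu π ρ (0 : A) 0) px‖ ≤
      (K : ℝ) * dist ((U, 0) : A × A) 0 := h2
    linarith
  have hap : ∀ (T' : ℝ) (x : ℝ → A × A), 0 < T' → T' ≤ T → x 0 = (1, s0) →
      (∀ t ∈ Set.Icc 0 T', HasDerivWithinAt x (V π ρ hx px (x t)) (Set.Icc 0 T') t) →
      ∀ t ∈ Set.Icc 0 T', ‖x t‖ ≤ 1 + ‖s0‖ + C * T := by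
    intro T' x hT' hTT h0 hd t ht
    have hf := facts π ρ hx px hhx hpx hnoS s0 hs0 hFc T' x h0 hd
    have h1 : ‖(x t).1‖ ≤ 1 := norm_le_one_of_mem (hf t ht).1
    have h2 := norm_image_sub_le_of_norm_deriv_le_segment' (f := fun t => (x t).2) (C := C)
      (fun t ht => (hd t ht).snd) (fun t ht => by
        show ‖- evx (vu π ρ (x t).1 (x t).2) px‖ ≤ C
        rw [norm_neg]
        exact hpb _ _ (norm_le_one_of_mem (hf t (Set.Ico_subset_Icc_self ht)).1)) t ht
    simp only [h0, sub_zero] at h2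
    have h3 : C * t ≤ C * T := mul_le_mul_of_nonneg_left (ht.2.trans hTT) hC0
    have h4 := norm_add_le s0 ((x t).2 - s0)
    rw [add_sub_cancel] at h4
    have h5 := norm_nonneg s0
    have h6 : 0 ≤ C * T := mul_nonneg hC0 hT.le
    rw [Prod.norm_def]
    exact max_le (by linarith) (by linarith)
  obtain ⟨x, h0, hd⟩ := hODE (A × A) (V π ρ hx px) hV (1, s0) T _ hT hap
  have hf := facts π ρ hx px hhx hpx hnoS s0 hs0 hFc T x h0 hd
  classical
  let U : ℝ → unitary A := fun t => if h : t ∈ Set.Icc 0 T then ⟨(x t).1, (hf t h).1⟩ else 1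
  let s : ℝ → A := fun t => if t ∈ Set.Icc 0 T then (x t).2 else s0
  have hU : ∀ t ∈ Set.Icc 0 T, (U t : A) = (x t).1 := by
    intro t ht
    simp only [U]
    rw [dif_pos ht]
  have hs : ∀ t ∈ Set.Icc 0 T, s t = (x t).2 := by
    intro t ht
    simp only [s]
    rw [if_pos ht]
  have h0T : (0 : ℝ) ∈ Set.Icc 0 T := Set.left_mem_Icc.2 hT.le
  refine ⟨U, s, ?_, ?_, ?_, ?_, ?_⟩
  · rw [hs 0 h0T, h0]
  · apply Subtype.ext
    rw [hU 0 h0T, h0]
    rfl
  · intro t
    by_cases ht : t ∈ Set.Icc 0 T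
    · rw [hs t ht]
      exact (hf t ht).2
    · simp only [s]
      rw [if_neg ht, hs0]
  · intro t ht
    rw [vl_cj, hU t ht, hs t ht]
    have h1 : HasDerivWithinAt (fun t => (x t).1)
      (Complex.I • ((x t).1 * evx (vu π ρ (x t).1 (x t).2) hx)) (Set.Icc 0 T) t := (hd t ht).fst
    exact h1.congr (fun y hy => hU y hy) (hU t ht)
  · intro t ht
    rw [vl_cj, hU t ht, hs t ht]
    have h1 : HasDerivWithinAt (fun t => (x t).2)
      (- evx (vu π ρ (x t).1 (x t).2) px) (Set.Icc 0 T) t := (hd t ht).snd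
    exact h1.congr (fun y hy => hs y hy) (hs t ht)

end Pool.Agent.H923R2.FP.T_FLOW
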